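import Pool.Agent.H44.EntC3

open Filter Topology Pool.Agent.H44.Pak

theorem Pool.Agent.Results.MP_c130e3_pr.Q2False.result :
    ∃ (V : ℕ → Type) (_ : ∀ n, Fintype (V n)) (_ : ∀ n, DecidableEq (V n))
      (K : ∀ n, Matrix (V n) (V n) ℝ) (π : ∀ n, V n → ℝ),
      (∀ n, IsRevChain (K n) (π n)) ∧
      Tendsto (fun n => entDist (K n) (π n) 0) atTop atTop ∧
      ∀ ε > 0, (∀ᶠ n in atTop, ∃ t, 0 ≤ t ∧ entDist (K n) (π n) t ≤ ε) ∧
        Tendsto (fun n => specGap (K n) (π n) * tEnt (K n) (π n) ε) atTop atTop ∧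
        ¬ ∀ δ ∈ Set.Ioo (0 : ℝ) 1,
          Tendsto (fun n => entDist (K n) (π n) ((1 + δ) * tEnt (K n) (π n) ε)) atTop (𝓝 0) ∧
          Tendsto (fun n => entDist (K n) (π n) ((1 - δ) * tEnt (K n) (π n) ε)) atTop atTop := by
  have hL : ∀ n : ℕ, 20 ≤ n + 20 := fun n => by omega
  have hT : Tendsto (fun n : ℕ => ((n + 20 : ℕ) : ℝ)) atTop atTop :=
    tendsto_natCast_atTop_atTop.comp (tendsto_add_atTop_nat 20)
  refine ⟨fun n => Fin (2 * (n + 20) + 2), inferInstance, inferInstance, fun n => KL (n + 20),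
    fun n => pL (n + 20), fun n => isRevL (hL n),
    tendsto_atTop_mono (fun n => factD (hL n) le_rfl (by positivity)) hT, fun ε hε => ?_⟩
  have e1 : ∀ᶠ n : ℕ in atTop, ∃ t, 0 ≤ t ∧ entDist (KL (n + 20)) (pL (n + 20)) t ≤ ε := by
    filter_upwards [hT.eventually_ge_atTop (20 / ε)] with n hn
    refine ⟨10 * (n + 20 : ℕ), by positivity, (factB (hL n)).trans ?_⟩
    rw [div_le_iff₀ hε] at hn
    rw [div_le_iff₀ (by positivity)]; linarith
  have e2 : ∀ᶠ n : ℕ in atTop, ((n + 20 : ℕ) : ℝ) / 2 ≤ tEnt (KL (n + 20)) (pL (n + 20)) ε := by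
    filter_upwards [e1, hT.eventually_gt_atTop ε] with n h1 h2
    refine le_csInf h1 ?_
    rintro t ⟨h0, ht⟩
    by_contra hc
    have := factD (hL n) h0 (not_le.1 hc).le
    linarith
  refine ⟨e1, ?_, fun hc => ?_⟩
  · refine tendsto_atTop_mono' _ ?_ (hT.atTop_div_const (show (0 : ℝ) < 8 by norm_num))
    filter_upwards [e2] with n hn
    have := gapL (hL n)
    have h0 : (0 : ℝ) ≤ (n + 20 : ℕ) := by positivity
    nlinarith
  · obtain ⟨c1, c2⟩ := hc (1 / 20) ⟨by norm_num, by norm_num⟩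
    obtain ⟨n, h1, h2, h3⟩ := (e2.and ((c1.eventually_lt_const one_pos).and
      (c2.eventually_gt_atTop 5000))).exists
    have h0 : (0 : ℝ) ≤ (n + 20 : ℕ) := by positivity
    have a : 9 / 5 * ((n + 20 : ℕ) : ℝ) < (1 + 1 / 20) * tEnt (KL (n + 20)) (pL (n + 20)) ε := by
      by_contra hh
      have := factC (hL n) (by linarith) (not_lt.1 hh)
      linarith
    have := factA (hL n) (t := (1 - 1 / 20) * tEnt (KL (n + 20)) (pL (n + 20)) ε) (by linarith)
    linarith
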